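import Pool.Agent.Helper11K9.TH.Main

/-!
# The tangent bundle of a Hirzebruch surface blown up at four general points is pseudo-effective

Let `X` be the blow-up of the Hirzebruch surface `F_n` at four general points. The theorem says that
the tangent bundle `T_X` is pseudo-effective in the strong sense of the problem, for every `n ≥ 0`:
there is an ample line bundle `A` such that `A ⊗ Sym^m T_X` is generated by its global sections at a
general point of `X`, for all `m`. In fact this holds for all `A = α N + β F - γ (E_1 + ... + E_4)`
with `β ≥ 4 γ + 8` and `α, γ ≥ 0`, where `N` is the negative section (`N² = - n`), `F` is a fibre and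
the `E_i` are the exceptional curves; `A` is ample for instance if `γ = 1` and `α` and `β - n α` are
large. (The condition in the definition does not depend on the choice of `A`: if it holds for a line
bundle `A`, then it holds for all `A'` such that `A' ⊗ A⁻¹` has a nonzero section.)

The only assumption on the four points is that they are on different fibres of `F_n → P^1` (and, for
`n = 0`, also on different fibres of the second projection), and outside of `N` and of `F`.

Conventions. The function field of `F_n` and of `X` is `K = ℂ(x, y)`. The surface `F_n` is covered by
the four affine planes with the coordinates `(x, y)`, `(1/x, y/x^n)`, `(x, 1/y)`, `(1/x, x^n/y)`; the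
fourth contains no new curve. So `N` is `y = ∞`, and `F` is the fibre `x = ∞`. The blow-up at the point
`(a, b)` is near the general point of the exceptional curve the affine plane with the coordinates
`x`, `(y - b)/(x - a)`, and the exceptional curve is `x = a`. A section of `Sym^m` of the tangent
bundle, twisted by a line bundle, over the smooth surface `X` is the same as a rational section which
is regular at all prime divisors; these are the prime divisors of `F_n` and the `E_i`.

A rational section `S` of `Sym^m T_X` is an element of the `m`-th symmetric power over `K` of the
space of derivations of `K`, that is, a homogeneous polynomial of degree `m` in derivations. It is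
given here by the function `f ↦ S(df, ..., df)` on `K`; a product `D_1 ⋯ D_m` of derivations is the
function `f ↦ D_1 f ⋯ D_m f` (`SymTensors`). It is regular on an affine plane with coordinates `u`,
`v` and ring `R = ℂ[u, v]` if its coefficients with respect to the monomials in `∂_u`, `∂_v` are in
`R`; equivalently, if `S(df, ..., df)` is in `R` for all `f` in `R` (`Regular`; take
`f = a u + b v`, `a, b ∈ ℂ`, for the nontrivial direction).

Proof. (a) Let `n ≤ 2`. There are two sections `q`, `q'` of `Sym² T_X` without common factors (over
`K`): the products of the vector fields which are tangent to two fibrations by conics, whose classes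
have the sum `-K_X`. For `n = 0` and `n = 2` take the pencils of curves of the class `N + F`,
respectively `N + 2 F`, through two of the points, and through the two other points; for `n = 1` the
pencil of lines through one of the points in the plane, and the pencil of conics through the three
other points and the point to which `N` is contracted. Then `Sym^m T_X`, `m ≥ 3`, is generated over `K` by
`q Sym^{m-2} T_X` and `q' Sym^{m-2} T_X`, and so the sections of `O(8 F) ⊗ Sym^m T_X` generate, by
induction on `m`.

(b) Let `n ≥ 3`, or let more generally the four points be on a section of `F_n` which does not meet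
`N` (`y = c(x)`, `deg c ≤ n`). Then the multiplicative group acts on `X`, and the vector field
`A = (y - c) ∂_y` is regular on `X`. Let `B = ∂_x + c' ∂_y` and `g = ∏ (x - a_i)`. The sections
of `Sym^m T_X` over `x ≠ ∞` contain `A`, `g B` and `B (g B + g' A)`. Let `V_m` be the bundle on `P^1` of
the invariant sections of `Sym^m T_X`. The filtration of `V_m` by the powers of `A` has the quotients
`O` and `O(-2)`, so `H^1(V_m(1)) = 0` (this is proved with two charts and division by powers of `g`),
and `V_m(2)` is generated by its sections at the general point.
-/

set_option autoImplicit false

namespace Pool.Agent.Results.MP_2b98ed_ag.AlwaysPseudoEffective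

/-- The function field `ℂ(x, y)` of the surfaces. -/
abbrev K : Type := FractionRing (MvPolynomial (Fin 2) ℂ)

/-- The coordinate `x` (on the base of the ruling). -/
noncomputable def x : K := algebraMap (MvPolynomial (Fin 2) ℂ) K (MvPolynomial.X 0)

/-- The coordinate `y` (on the fibres of the ruling). -/
noncomputable def y : K := algebraMap (MvPolynomial (Fin 2) ℂ) K (MvPolynomial.X 1)

/-- The rational sections of the `m`-th symmetric power of the tangent bundle: the linear
combinations over `K` of products `D_1 ⋯ D_m` of derivations, as functions
`f ↦ D_1 f ⋯ D_m f` of `f ∈ K`. -/
noncomputable def SymTensors (m : ℕ) : Submodule K (K → K) :=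
  Submodule.span K (Set.range fun (D : Fin m → Derivation ℂ K K) (f : K) => ∏ i, D i f)

/-- `e S` is a regular section of the `m`-th symmetric power of the tangent bundle over the affine
plane with the coordinates `u`, `v`. -/
def Regular (u v e : K) (S : K → K) : Prop :=
  ∀ f ∈ Algebra.adjoin ℂ {u, v}, e * S f ∈ Algebra.adjoin ℂ {u, v}

/-- `S` is a global section over `X` of `A ⊗ Sym^m T_X`, where `X` is the blow-up of `F_n` at the
points `p i` of the `(x, y)`-plane, `A = α N + β F - γ (E_1 + ... + E_4)`, `N` is the curve `y = ∞`,
`F` is the fibre `x = ∞`, and `E_i` are the exceptional curves. -/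
structure IsSection (n : ℕ) (p : Fin 4 → ℂ × ℂ) (α β γ m : ℕ) (S : K → K) : Prop where
  tensor : S ∈ SymTensors m
  plane : Regular x y 1 S
  fibre : Regular x⁻¹ (y / x ^ n) (x⁻¹ ^ β) S
  curve : Regular x y⁻¹ (y⁻¹ ^ α) S
  exceptional : ∀ i, Regular x ((y - algebraMap ℂ K (p i).2) / (x - algebraMap ℂ K (p i).1))
    ((x - algebraMap ℂ K (p i).1)⁻¹ ^ γ) S

/-- `A ⊗ Sym^m T_X` is generated by its global sections at the general point of `X`. -/
def GenericallyGenerated (n : ℕ) (p : Fin 4 → ℂ × ℂ) (α β γ m : ℕ) : Prop :=
  SymTensors m ≤ Submodule.span K {S | IsSection n p α β γ m S}

/-- **The tangent bundle of `F_n` blown up at four general points is pseudo-effective, for every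
`n`.** Let `X` be the blow-up of `F_n` at four points of the `(x, y)`-plane on different fibres (and,
for `n = 0`, on different fibres of the second ruling as well). Let
`A = α N + β F - γ (E_1 + ... + E_4)` with `β ≥ 4 γ + 8`. Then `A ⊗ Sym^m T_X` is generated by its
global sections at the general point of `X`, for all `m`. -/
theorem result (n : ℕ) (p : Fin 4 → ℂ × ℂ) (hx : Function.Injective fun i => (p i).1)
    (hy : n = 0 → Function.Injective fun i => (p i).2) (α β γ : ℕ) (hβ : 4 * γ + 8 ≤ β) (m : ℕ) :
    GenericallyGenerated n p α β γ m := by
  obtain ⟨Ex, Ey, F⟩ := Pool.Agent.Helper11K9.TH.frame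
  have h1 := Pool.Agent.Helper11K9.TH.main (n := n) (p := p) F
    (fun i j hij h => hij (hx h)) (fun h0 i j hij h => hij (hy h0 h)) m
  have h2 := Pool.Agent.Helper11K9.TH.gen_shift (α := α) F hβ h1
  refine le_trans h2 (Submodule.span_mono fun S hS => ?_)
  exact ⟨hS.tens, hS.plane, hS.fibre, hS.curve, hS.exc⟩

end Pool.Agent.Results.MP_2b98ed_ag.AlwaysPseudoEffective
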